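import Pool.Agent.GLE.StmtsC

/-!
# ENK: the smeared logarithmic kernel
-/

set_option autoImplicit false

namespace Pool.Agent.GLE.H84

open MeasureTheory Filter Topology Real Pool.Agent.GLE

/-- the circle average of the logarithm of the distance -/
theorem avg_log (a b : ℂ) (ε : ℝ) (hε : 0 < ε) :
    Real.circleAverage (fun z => Real.log ‖z - b‖) a ε = Real.log (max ‖a - b‖ ε) := by
  have h1 := circleAverage_log_norm_sub_const_eq_log_radius_add_posLog (a := b) (c := a) hε.ne'
  rw [h1]
  have hn := norm_nonneg (a - b)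
  rcases le_total ‖a - b‖ ε with h | h
  · rw [max_eq_right h]
    have h2 : Real.posLog (ε⁻¹ * ‖a - b‖) = 0 := by
      rw [Real.posLog_eq_zero_iff, abs_of_nonneg (by positivity)]
      rw [inv_mul_le_iff₀ hε, mul_one]
      exact h
    rw [h2, add_zero]
  · rw [max_eq_left h]
    have h3 : 1 ≤ ε⁻¹ * ‖a - b‖ := by
      rw [le_inv_mul_iff₀ hε, mul_one]
      exact h
    have h2 : Real.posLog (ε⁻¹ * ‖a - b‖) = Real.log (ε⁻¹ * ‖a - b‖) := by
      apply Real.posLog_eq_log
      rw [abs_of_nonneg (by positivity)]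
      exact h3
    have h4 : 0 < ‖a - b‖ := lt_of_lt_of_le hε h
    rw [h2, Real.log_mul (by positivity) h4.ne', Real.log_inv]
    ring

theorem cont_lm (b : ℂ) (ε : ℝ) (hε : 0 < ε) :
    Continuous (fun z : ℂ => Real.log (max ‖z - b‖ ε)) := by
  apply Continuous.log
  · fun_prop
  · intro z
    exact (lt_of_lt_of_le hε (le_max_right _ _)).ne'

theorem ci_lm (b : ℂ) (ε : ℝ) (hε : 0 < ε) (a : ℂ) (R : ℝ) :
    CircleIntegrable (fun z : ℂ => Real.log (max ‖z - b‖ ε)) a R :=
  ContinuousOn.circleIntegrable' (cont_lm b ε hε).continuousOn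

/-- monotonicity up to a finite set -/
theorem avg_mono_off {c : ℂ} {R : ℝ} (hR : R ≠ 0) {f g : ℂ → ℝ} (S : Finset ℂ)
    (hf : CircleIntegrable f c R) (hg : CircleIntegrable g c R)
    (h : ∀ x ∈ Metric.sphere c |R|, x ∉ S → f x ≤ g x) :
    Real.circleAverage f c R ≤ Real.circleAverage g c R := by
  classical
  have h1 : f =ᶠ[codiscreteWithin (Metric.sphere c |R|)] (fun x => if x ∈ S then g x else f x) := by
    have h2 : (↑S : Set ℂ)ᶜ ∈ codiscreteWithin (Metric.sphere c |R|) :=
      compl_finite_mem_codiscreteWithin S.finite_toSet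
    filter_upwards [h2] with x hx
    have hx' : x ∉ S := by simpa using hx
    rw [if_neg hx']
  rw [circleAverage_congr_codiscreteWithin h1 hR]
  apply circleAverage_mono (hf.congr_codiscreteWithin h1) hg
  intro x hx
  show (if x ∈ S then g x else f x) ≤ g x
  by_cases hxS : x ∈ S
  · rw [if_pos hxS]
  · rw [if_neg hxS]
    exact h x hx hxS

theorem enk1 (ε : ℝ) (a : ℂ) (hε : 0 < ε) : Ek ε a a = Real.log ε := by
  unfold Ek
  have h1 : Set.EqOn (fun z : ℂ => Real.log (max ‖z - a‖ ε)) (fun _ => Real.log ε)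
      (Metric.sphere a |ε|) := by
    intro z hz
    rw [mem_sphere_iff_norm, abs_of_pos hε] at hz
    show Real.log (max ‖z - a‖ ε) = Real.log ε
    rw [hz, max_self]
  rw [circleAverage_congr_sphere h1, circleAverage_const]

theorem enk2 (ε : ℝ) (a b : ℂ) : Ek ε a b = Ek ε b a := by
  unfold Ek
  rw [circleAverage_eq_integral_add (f := fun z => Real.log (max ‖z - a‖ ε)) Real.pi,
    circleAverage_def]
  congr 1
  apply intervalIntegral.integral_congr
  intro θ _
  show Real.log (max ‖circleMap a ε θ - b‖ ε) =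
    Real.log (max ‖circleMap b ε (θ + Real.pi) - a‖ ε)
  have h1 : circleMap b ε (θ + Real.pi) - a = -(circleMap a ε θ - b) := by
    unfold circleMap
    push_cast
    rw [add_mul, Complex.exp_add, Complex.exp_pi_mul_I]
    ring
  rw [h1, norm_neg]

theorem enk3 (ε : ℝ) (a b : ℂ) (hε : 0 < ε) (hab : a ≠ b) : Real.log ‖a - b‖ ≤ Ek ε a b := by
  have h0 : 0 < ‖a - b‖ := norm_pos_iff.mpr (sub_ne_zero.mpr hab)
  calc Real.log ‖a - b‖ ≤ Real.log (max ‖a - b‖ ε) :=
        Real.log_le_log h0 (le_max_left _ _)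
    _ = Real.circleAverage (fun z => Real.log ‖z - b‖) a ε := (avg_log a b ε hε).symm
    _ ≤ Ek ε a b := by
        unfold Ek
        apply avg_mono_off hε.ne' {b} (circleIntegrable_log_norm_sub_const ε) (ci_lm b ε hε a ε)
        intro x _ hx
        have hx' : x ≠ b := by simpa using hx
        exact Real.log_le_log (norm_pos_iff.mpr (sub_ne_zero.mpr hx')) (le_max_left _ _)

theorem enk4 (ε K : ℝ) (a : ℂ) (Z : Finset ℂ) (hε : 0 < ε) (hK : 1 ≤ K)
    (h : ∀ w : ℂ, ‖w - a‖ ≤ 2 * ε → ‖∏ b ∈ Z, (w - b)‖ ≤ K) :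
    ∑ b ∈ Z, Ek ε a b ≤ Real.log K := by
  unfold Ek
  rw [← circleAverage_fun_sum (fun b _ => ci_lm b ε hε a ε)]
  apply circleAverage_mono_on_of_le_circle
  · exact ContinuousOn.circleIntegrable'
      (continuous_finsetSum Z (fun b _ => cont_lm b ε hε)).continuousOn
  · intro z hz
    rw [mem_sphere_iff_norm, abs_of_pos hε] at hz
    have h1 : ∑ b ∈ Z, Real.log (max ‖z - b‖ ε) =
        Real.circleAverage (fun w => ∑ b ∈ Z, Real.log ‖w - b‖) z ε := by
      rw [circleAverage_fun_sum (fun b _ => circleIntegrable_log_norm_sub_const ε)]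
      apply Finset.sum_congr rfl
      intro b _
      rw [avg_log z b ε hε]
    rw [h1]
    have h2 : Real.circleAverage (fun w => ∑ b ∈ Z, Real.log ‖w - b‖) z ε ≤
        Real.circleAverage (fun _ => Real.log K) z ε := by
      apply avg_mono_off hε.ne' Z
      · exact CircleIntegrable.fun_sum Z (fun b _ => circleIntegrable_log_norm_sub_const ε)
      · exact circleIntegrable_const _ _ _
      · intro w hw hwZ
        rw [mem_sphere_iff_norm, abs_of_pos hε] at hw
        show ∑ b ∈ Z, Real.log ‖w - b‖ ≤ Real.log K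
        have hne : ∀ b ∈ Z, ‖w - b‖ ≠ 0 := by
          intro b hb hc
          rw [norm_eq_zero, sub_eq_zero] at hc
          exact hwZ (hc ▸ hb)
        rw [← Real.log_prod hne]
        have hwa : ‖w - a‖ ≤ 2 * ε := by
          have h3 : w - a = (w - z) + (z - a) := by ring
          calc ‖w - a‖ = ‖(w - z) + (z - a)‖ := by rw [h3]
            _ ≤ ‖w - z‖ + ‖z - a‖ := norm_add_le _ _
            _ = 2 * ε := by rw [hw, hz]; ring
        have h4 := h w hwa
        rw [norm_prod] at h4
        apply Real.log_le_log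
        · apply Finset.prod_pos
          intro b hb
          exact lt_of_le_of_ne (norm_nonneg _) (Ne.symm (hne b hb))
        · exact h4
    rw [circleAverage_const] at h2
    exact h2

theorem enk : EnkStmt :=
  ⟨enk1, fun ε a b _ => enk2 ε a b, enk3, enk4⟩

end Pool.Agent.GLE.H84
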