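import Pool.Agent.Helper84_GLE.ENK

/-!
# GRM: energy of a neutral system of smeared charges
-/

set_option autoImplicit false

namespace Pool.Agent.GLE.H84

open MeasureTheory Filter Topology Real Pool.Agent.GLE

theorem Vg_meas (ε : ℝ) : Measurable (Vg ε) := by
  unfold Vg
  apply Measurable.ite
  · exact measurableSet_le measurable_norm measurable_const
  · exact measurable_const
  · fun_prop

theorem Vg_of_lt {ε : ℝ} {z : ℂ} (h : ε < ‖z‖) : Vg ε z = z / ((‖z‖ ^ 2 : ℝ) : ℂ) := by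
  unfold Vg
  rw [if_neg (not_le.mpr h)]

theorem Vg_of_le {ε : ℝ} {z : ℂ} (h : ‖z‖ ≤ ε) : Vg ε z = 0 := by
  unfold Vg
  rw [if_pos h]

theorem conj_Vg {ε : ℝ} (hε : 0 < ε) {z : ℂ} (h : ε < ‖z‖) :
    (starRingEnd ℂ) (Vg ε z) = z⁻¹ := by
  rw [Vg_of_lt h, map_div₀, Complex.conj_ofReal]
  have h1 : z ≠ 0 := by
    intro hc
    rw [hc, norm_zero] at h
    linarith
  have h2 : (((‖z‖ ^ 2 : ℝ)) : ℂ) = z * (starRingEnd ℂ) z := by
    rw [Complex.mul_conj, Complex.normSq_eq_norm_sq]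
  rw [h2]
  have h3 : (starRingEnd ℂ) z ≠ 0 := by
    simpa using h1
  field_simp

theorem Vg_bd {ε : ℝ} (hε : 0 < ε) (z : ℂ) : ‖Vg ε z‖ ≤ 1 / ε := by
  rcases le_or_gt ‖z‖ ε with h | h
  · rw [Vg_of_le h, norm_zero]
    positivity
  · have h1 := conj_Vg hε h
    have h2 : ‖Vg ε z‖ = ‖(starRingEnd ℂ) (Vg ε z)‖ := (RCLike.norm_conj _).symm
    rw [h2, h1, norm_inv, ← one_div]
    apply one_div_le_one_div_of_le hε h.le

/-- the bound for one charge -/
theorem diff_bd {ε : ℝ} (hε : 0 < ε) (a : ℂ) :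
    ∃ K : ℝ, 0 ≤ K ∧ ∀ z, ‖Vg ε (z - a) - Vg ε z‖ ≤ K / (1 + ‖z‖) ^ 2 := by
  set A := ‖a‖ with hA
  have hA0 : 0 ≤ A := norm_nonneg a
  set R := 2 * A + 2 * ε + 1 with hR
  refine ⟨8 * A + 2 / ε * (1 + R) ^ 2, by positivity, fun z => ?_⟩
  have hz0 := norm_nonneg z
  have hpos : 0 < (1 + ‖z‖) ^ 2 := by positivity
  rw [le_div_iff₀ hpos]
  rcases le_or_gt ‖z‖ R with h | h
  · have h1 : ‖Vg ε (z - a) - Vg ε z‖ ≤ 2 / ε := by
      calc ‖Vg ε (z - a) - Vg ε z‖ ≤ ‖Vg ε (z - a)‖ + ‖Vg ε z‖ := norm_sub_le _ _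
        _ ≤ 1 / ε + 1 / ε := add_le_add (Vg_bd hε _) (Vg_bd hε _)
        _ = 2 / ε := by ring
    have h2 : (1 + ‖z‖) ^ 2 ≤ (1 + R) ^ 2 := by
      apply pow_le_pow_left₀ (by positivity)
      linarith
    calc ‖Vg ε (z - a) - Vg ε z‖ * (1 + ‖z‖) ^ 2 ≤ 2 / ε * (1 + R) ^ 2 :=
          mul_le_mul h1 h2 hpos.le (by positivity)
      _ ≤ 8 * A + 2 / ε * (1 + R) ^ 2 := by linarith
  · have hz1 : ε < ‖z‖ := by linarith
    have h3 : ‖z‖ / 2 ≤ ‖z - a‖ := by
      have h4 : ‖z‖ - ‖a‖ ≤ ‖z - a‖ := norm_sub_norm_le z a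
      linarith
    have hz2 : ε < ‖z - a‖ := by linarith
    have hzn : z ≠ 0 := by
      intro hc
      rw [hc, norm_zero] at hz1
      linarith
    have hzan : z - a ≠ 0 := by
      intro hc
      rw [hc, norm_zero] at hz2
      linarith
    have h5 : ‖Vg ε (z - a) - Vg ε z‖ = ‖(z - a)⁻¹ - z⁻¹‖ := by
      rw [← conj_Vg hε hz1, ← conj_Vg hε hz2, ← map_sub]
      exact (RCLike.norm_conj _).symm
    have h6 : (z - a)⁻¹ - z⁻¹ = a / ((z - a) * z) := by
      field_simp
      ring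
    have h7 : ‖Vg ε (z - a) - Vg ε z‖ ≤ 2 * A / ‖z‖ ^ 2 := by
      rw [h5, h6, norm_div, norm_mul]
      have h8 : 0 < ‖z‖ := by linarith
      have h9 : 0 < ‖z - a‖ := by linarith
      rw [div_le_div_iff₀ (by positivity) (by positivity)]
      have h10 : ‖z‖ / 2 * (A * ‖z‖) ≤ ‖z - a‖ * (A * ‖z‖) :=
        mul_le_mul_of_nonneg_right h3 (by positivity)
      nlinarith [h10]
    have h8 : 1 ≤ ‖z‖ := by linarith
    have h9 : (1 + ‖z‖) ^ 2 ≤ 4 * ‖z‖ ^ 2 := by nlinarith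
    calc ‖Vg ε (z - a) - Vg ε z‖ * (1 + ‖z‖) ^ 2 ≤ 2 * A / ‖z‖ ^ 2 * (4 * ‖z‖ ^ 2) :=
          mul_le_mul h7 h9 hpos.le (by positivity)
      _ = 8 * A := by
          field_simp
          ring
      _ ≤ 8 * A + 2 / ε * (1 + R) ^ 2 := by
          have : 0 ≤ 2 / ε * (1 + R) ^ 2 := by positivity
          linarith

/-- decay of the potential of one neutral pair -/
theorem diff_tend {ε : ℝ} (hε : 0 < ε) (a : ℂ) :
    Tendsto (fun z : ℂ => Real.log (max ‖z - a‖ ε) - Real.log (max ‖z‖ ε)) (cocompact ℂ)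
      (𝓝 0) := by
  have h1 : Tendsto (fun z : ℂ => Real.log ‖1 - a * z⁻¹‖) (cocompact ℂ) (𝓝 0) := by
    have h2 : Tendsto (fun z : ℂ => z⁻¹) (cocompact ℂ) (𝓝 0) := by
      rw [← Metric.cobounded_eq_cocompact]
      exact tendsto_inv₀_cobounded
    have h3 : Tendsto (fun z : ℂ => ‖1 - a * z⁻¹‖) (cocompact ℂ) (𝓝 ‖(1 : ℂ) - a * 0‖) :=
      ((tendsto_const_nhds).sub ((tendsto_const_nhds).mul h2)).norm
    have h4 : ‖(1 : ℂ) - a * 0‖ = 1 := by simp
    rw [h4] at h3
    have h5 := h3.log one_ne_zero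
    rwa [Real.log_one] at h5
  apply h1.congr'
  have h6 : ∀ᶠ z : ℂ in cocompact ℂ, ‖a‖ + ε + 1 < ‖z‖ := by
    have := tendsto_norm_cocompact_atTop (E := ℂ)
    exact this.eventually_gt_atTop _
  filter_upwards [h6] with z hz
  have ha := norm_nonneg a
  have hz1 : ε < ‖z‖ := by linarith
  have h3 : ‖z‖ - ‖a‖ ≤ ‖z - a‖ := norm_sub_norm_le z a
  have hz2 : ε < ‖z - a‖ := by linarith
  have hzn : z ≠ 0 := by
    intro hc
    rw [hc, norm_zero] at hz1
    linarith
  rw [max_eq_left hz1.le, max_eq_left hz2.le]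
  have h7 : (1 : ℂ) - a * z⁻¹ = (z - a) / z := by
    field_simp
  rw [h7, norm_div, Real.log_div (by linarith) (by linarith)]

/-- derivative of the potential of one charge off the circle -/
theorem der_one {ε : ℝ} (hε : 0 < ε) (a z : ℂ) (hz : ‖z - a‖ ≠ ε) :
    HasFDerivAt (fun z : ℂ => Real.log (max ‖z - a‖ ε)) (innerSL ℝ (Vg ε (z - a))) z := by
  rcases lt_or_gt_of_ne hz with h | h
  · rw [Vg_of_le h.le, map_zero]
    have h1 : (fun z : ℂ => Real.log (max ‖z - a‖ ε)) =ᶠ[𝓝 z] fun _ => Real.log ε := by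
      have h2 : ∀ᶠ w in 𝓝 z, ‖w - a‖ < ε := by
        have h3 : Continuous (fun w : ℂ => ‖w - a‖) := by fun_prop
        exact h3.continuousAt.eventually (Iio_mem_nhds h)
      filter_upwards [h2] with w hw
      rw [max_eq_right hw.le]
    exact (hasFDerivAt_const (Real.log ε) z).congr_of_eventuallyEq h1
  · rw [Vg_of_lt h]
    have h1 : (fun z : ℂ => Real.log (max ‖z - a‖ ε)) =ᶠ[𝓝 z]
        fun w => (1 / 2 : ℝ) * Real.log (‖w - a‖ ^ 2) := by
      have h2 : ∀ᶠ w in 𝓝 z, ε < ‖w - a‖ := by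
        have h3 : Continuous (fun w : ℂ => ‖w - a‖) := by fun_prop
        exact h3.continuousAt.eventually (Ioi_mem_nhds h)
      filter_upwards [h2] with w hw
      rw [max_eq_left hw.le, Real.log_pow]
      push_cast
      ring
    have hpos : 0 < ‖z - a‖ := by linarith
    have h4 : HasFDerivAt (fun w : ℂ => ‖w - a‖ ^ 2)
        (2 • (innerSL ℝ (z - a)).comp (ContinuousLinearMap.id ℝ ℂ)) z :=
      ((hasFDerivAt_id z).sub_const a).norm_sq
    have h5 := (h4.log (by positivity)).const_mul (1 / 2 : ℝ)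
    have h6 : (1 / 2 : ℝ) • ((‖z - a‖ ^ 2)⁻¹ •
        (2 • (innerSL ℝ (z - a)).comp (ContinuousLinearMap.id ℝ ℂ))) =
        innerSL ℝ ((z - a) / ((‖z - a‖ ^ 2 : ℝ) : ℂ)) := by
      have h7 : (z - a) / ((‖z - a‖ ^ 2 : ℝ) : ℂ) = ((‖z - a‖ ^ 2)⁻¹ : ℝ) • (z - a) := by
        rw [Complex.real_smul, Complex.ofReal_inv, div_eq_inv_mul]
      rw [h7, map_smul]
      ext w
      simp only [smul_apply, ContinuousLinearMap.comp_id, smul_eq_mul,
        nsmul_eq_mul]
      push_cast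
      ring
    rw [h6] at h5
    exact h5.congr_of_eventuallyEq h1

/-- a line meets a circle in a countable set -/
theorem line_one (a b w : ℂ) (ε : ℝ) (hw : ‖w‖ = 1) :
    {ρ : ℝ | ‖a + (ρ : ℂ) * w - b‖ = ε}.Countable := by
  set β : ℝ := (a - b).re * w.re + (a - b).im * w.im with hβ
  set γ : ℝ := ε ^ 2 - ((a - b).re ^ 2 + (a - b).im ^ 2) + β ^ 2 with hγ
  have hw2 : w.re ^ 2 + w.im ^ 2 = 1 := by
    have h1 := Complex.sq_norm w
    rw [hw, Complex.normSq_apply] at h1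
    nlinarith
  apply Set.Countable.mono (s₂ := {-β + Real.sqrt γ, -β - Real.sqrt γ})
  · intro ρ hρ
    have h1 : ‖a + (ρ : ℂ) * w - b‖ = ε := hρ
    have h2 := Complex.sq_norm (a + (ρ : ℂ) * w - b)
    rw [h1, Complex.normSq_apply] at h2
    have h3 : (a + (ρ : ℂ) * w - b).re = (a - b).re + ρ * w.re := by
      simp
      ring
    have h4 : (a + (ρ : ℂ) * w - b).im = (a - b).im + ρ * w.im := by
      simp
      ring
    rw [h3, h4] at h2
    have h5 : γ = (ρ + β) ^ 2 := by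
      rw [hγ, h2, hβ]
      linear_combination (ρ ^ 2) * hw2
    have h6 : Real.sqrt γ = |ρ + β| := by rw [h5, Real.sqrt_sq_eq_abs]
    rcases abs_cases (ρ + β) with ⟨h7, _⟩ | ⟨h7, _⟩
    · left
      rw [h6, h7]
      ring
    · right
      show ρ = -β - Real.sqrt γ
      rw [h6, h7]
      ring
  · exact (Set.toFinite _).countable

theorem grm (hRDG : RdgStmt) : GrmStmt := by
  classical
  intro ι _ a c ε hε hc
  set G : ℂ → ℂ := fun z => ∑ i, (c i : ℂ) * Vg ε (z - a i) with hG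
  set Φ : ℂ → ℝ := fun z => ∑ i, c i * Real.log (max ‖z - a i‖ ε) with hΦ
  have hGm : Measurable G := by
    apply Finset.measurable_fun_sum
    intro i _
    exact measurable_const.mul ((Vg_meas ε).comp (measurable_id.sub_const (a i)))
  have hΦc : Continuous Φ := by
    apply continuous_finsetSum
    intro i _
    exact continuous_const.mul (cont_lm (a i) ε hε)
  have hcc : ∑ i, (c i : ℂ) = 0 := by
    rw [← Complex.ofReal_sum, hc, Complex.ofReal_zero]
  -- bound
  choose Kf hKf0 hKf using fun i => diff_bd hε (a i)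
  set K : ℝ := ∑ i, |c i| * Kf i with hK
  have hK0 : 0 ≤ K := Finset.sum_nonneg (fun i _ => mul_nonneg (abs_nonneg _) (hKf0 i))
  have hGb : ∀ z, ‖G z‖ ≤ K / (1 + ‖z‖) ^ 2 := by
    intro z
    have h1 : G z = ∑ i, (c i : ℂ) * (Vg ε (z - a i) - Vg ε z) := by
      show ∑ i, (c i : ℂ) * Vg ε (z - a i) = _
      simp only [mul_sub, Finset.sum_sub_distrib]
      rw [← Finset.sum_mul, hcc, zero_mul, sub_zero]
    rw [h1, hK, Finset.sum_div]
    refine (norm_sum_le _ _).trans (Finset.sum_le_sum fun i _ => ?_)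
    rw [norm_mul, Complex.norm_real, Real.norm_eq_abs, mul_div_assoc]
    exact mul_le_mul_of_nonneg_left (hKf i z) (abs_nonneg _)
  -- decay
  have hΦt : Tendsto Φ (cocompact ℂ) (𝓝 0) := by
    have h1 : Φ = fun z => ∑ i, c i * (Real.log (max ‖z - a i‖ ε) - Real.log (max ‖z‖ ε)) := by
      funext z
      show ∑ i, c i * Real.log (max ‖z - a i‖ ε) = _
      simp only [mul_sub, Finset.sum_sub_distrib]
      rw [← Finset.sum_mul, hc, zero_mul, sub_zero]
    rw [h1]
    have h2 : Tendsto (fun z : ℂ => ∑ i, c i *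
        (Real.log (max ‖z - a i‖ ε) - Real.log (max ‖z‖ ε))) (cocompact ℂ)
        (𝓝 (∑ i, c i * 0)) := by
      apply tendsto_finsetSum
      intro i _
      exact (tendsto_const_nhds).mul (diff_tend hε (a i))
    simpa using h2
  -- derivative
  set E : Set ℂ := {z | ∃ i, ‖z - a i‖ = ε} with hE
  have hder : ∀ z, z ∉ E → HasFDerivAt Φ (innerSL ℝ (G z)) z := by
    intro z hz
    have h1 : innerSL ℝ (G z) = ∑ i, c i • innerSL ℝ (Vg ε (z - a i)) := by
      show innerSL ℝ (∑ i, (c i : ℂ) * Vg ε (z - a i)) = _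
      rw [map_sum]
      apply Finset.sum_congr rfl
      intro i _
      rw [← Complex.real_smul, map_smul]
    rw [h1]
    apply HasFDerivAt.fun_sum
    intro i _
    apply HasFDerivAt.const_mul
    apply der_one hε
    intro h2
    exact hz ⟨i, h2⟩
  have hcount : ∀ b w : ℂ, ‖w‖ = 1 → {ρ : ℝ | b + (ρ : ℂ) * w ∈ E}.Countable := by
    intro b w hw
    have h1 : {ρ : ℝ | b + (ρ : ℂ) * w ∈ E} =
        ⋃ i, {ρ : ℝ | ‖b + (ρ : ℂ) * w - a i‖ = ε} := by
      ext ρ
      simp [hE]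
    rw [h1]
    exact Set.countable_iUnion fun i => line_one b (a i) w ε hw
  have hmain := hRDG Φ G K E hΦc hΦt hGm hGb hder hcount
  -- square integrability
  have hMem : MemLp G 2 volume := by
    rw [memLp_two_iff_integrable_sq_norm hGm.aestronglyMeasurable]
    have h1 : Integrable (fun z : ℂ => (1 + ‖z‖) ^ (-(4 : ℝ))) volume := by
      apply integrable_one_add_norm
      rw [Complex.finrank_real_complex]
      norm_num
    apply (h1.const_mul (K ^ 2)).mono'
    · exact (hGm.norm.pow_const 2).aestronglyMeasurable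
    · apply Eventually.of_forall
      intro z
      have hz0 := norm_nonneg z
      rw [Real.norm_eq_abs, abs_of_nonneg (by positivity)]
      calc ‖G z‖ ^ 2 ≤ (K / (1 + ‖z‖) ^ 2) ^ 2 :=
            pow_le_pow_left₀ (norm_nonneg _) (hGb z) 2
        _ = K ^ 2 * (1 + ‖z‖) ^ (-(4 : ℝ)) := by
            rw [Real.rpow_neg (by positivity), div_pow, ← pow_mul]
            have h2 : (1 + ‖z‖) ^ (4 : ℝ) = (1 + ‖z‖) ^ (2 * 2) := by
              rw [← Real.rpow_natCast]
              norm_num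
            rw [h2]
            rfl
  refine ⟨hMem, ?_⟩
  have hsq : ∀ z, ‖G z‖ ^ 2 =
      ∑ i, c i * ((starRingEnd ℂ) (Vg ε (z - a i)) * G z).re := by
    intro z
    have h1 : (((‖G z‖ ^ 2 : ℝ)) : ℂ) = (starRingEnd ℂ) (G z) * G z := by
      rw [Complex.conj_mul']
      push_cast
      rfl
    have h2 : ‖G z‖ ^ 2 = ((starRingEnd ℂ) (G z) * G z).re := by
      rw [← h1, Complex.ofReal_re]
    rw [h2]
    have h3 : (starRingEnd ℂ) (G z) = ∑ i, (c i : ℂ) * (starRingEnd ℂ) (Vg ε (z - a i)) := by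
      show (starRingEnd ℂ) (∑ i, (c i : ℂ) * Vg ε (z - a i)) = _
      rw [map_sum]
      apply Finset.sum_congr rfl
      intro i _
      rw [map_mul, Complex.conj_ofReal]
    rw [h3, Finset.sum_mul, Complex.re_sum]
    apply Finset.sum_congr rfl
    intro i _
    rw [mul_assoc, Complex.re_ofReal_mul]
  have hint : ∫ z, ‖G z‖ ^ 2 =
      ∑ i, c i * ∫ z, ((starRingEnd ℂ) (Vg ε (z - a i)) * G z).re := by
    calc ∫ z, ‖G z‖ ^ 2 = ∫ z, ∑ i, c i * ((starRingEnd ℂ) (Vg ε (z - a i)) * G z).re := by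
          simp only [hsq]
      _ = ∑ i, ∫ z, c i * ((starRingEnd ℂ) (Vg ε (z - a i)) * G z).re := by
          apply integral_finsetSum
          intro i _
          exact ((hmain (a i) ε hε.le).1).const_mul _
      _ = _ := by
          apply Finset.sum_congr rfl
          intro i _
          rw [integral_const_mul]
  have havg : ∀ i, Real.circleAverage Φ (a i) ε = ∑ j, c j * Ek ε (a i) (a j) := by
    intro i
    have h1 : Real.circleAverage (fun z => ∑ j, c j * Real.log (max ‖z - a j‖ ε)) (a i) ε =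
        ∑ j, Real.circleAverage (fun z => c j * Real.log (max ‖z - a j‖ ε)) (a i) ε := by
      apply circleAverage_fun_sum
      intro j _
      exact ContinuousOn.circleIntegrable'
        (continuous_const.mul (cont_lm (a j) ε hε)).continuousOn
    show Real.circleAverage (fun z => ∑ j, c j * Real.log (max ‖z - a j‖ ε)) (a i) ε = _
    rw [h1]
    apply Finset.sum_congr rfl
    intro j _
    unfold Ek
    have h2 := circleAverage_fun_smul (a := c j) (c := a i) (R := ε)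
      (f := fun z => Real.log (max ‖z - a j‖ ε))
    simpa using h2
  show ∫ z, ‖G z‖ ^ 2 = _
  rw [hint, Finset.mul_sum]
  apply Finset.sum_congr rfl
  intro i _
  rw [(hmain (a i) ε hε.le).2, havg i, Finset.mul_sum, Finset.mul_sum, Finset.mul_sum]
  apply Finset.sum_congr rfl
  intro j _
  ring

end Pool.Agent.GLE.H84
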